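import Mathlib
import Pool.Agent.TH407.MV.Defs
set_option autoImplicit false

namespace Pool.Agent.TH606.MV

open Pool.Agent.TH407.MV
open MeasureTheory Set Complex
open scoped ENNReal NNReal Real ComplexConjugate

/-- the Lipschitz bound on `[-3r, 3r]` -/
theorem lip_aux (r N : ℝ) (f f1 : ℝ → ℝ)
    (h : ∀ x ∈ Icc (-(3 * r)) (3 * r), HasDerivAt f (f1 x) x ∧ |f1 x| ≤ N)
    (x y : ℝ) (hx : x ∈ Icc (-(3 * r)) (3 * r)) (hy : y ∈ Icc (-(3 * r)) (3 * r)) :
    |f y - f x| ≤ N * |y - x| := by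
  have := Convex.norm_image_sub_le_of_norm_hasDerivWithin_le (f := f) (f' := f1) (C := N)
    (s := Icc (-(3 * r)) (3 * r)) (x := x) (y := y)
    (fun z hz => (h z hz).1.hasDerivWithinAt)
    (fun z hz => by rw [Real.norm_eq_abs]; exact (h z hz).2) (convex_Icc _ _) hx hy
  simpa [Real.norm_eq_abs] using this

/-- the even part -/
theorem even_aux (r N : ℝ) (f f1 f2 : ℝ → ℝ) (hr : 0 < r)
    (h : ∀ x ∈ Icc (-(3 * r)) (3 * r), HasDerivAt f (f1 x) x ∧ HasDerivAt f1 (f2 x) x ∧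
      |f1 x| ≤ N ∧ |f2 x| ≤ N) (m : ℝ) (hm : |m| ≤ r)
    (d e : ℝ) (hd : 0 ≤ d) (hde : d ≤ e) (her : e ≤ r) :
    |(f (m + e) + f (m - e)) - (f (m + d) + f (m - d))| ≤ N * (e ^ 2 - d ^ 2) := by
  have hm' := abs_le.1 hm
  have hder : ∀ x ∈ Icc (0 : ℝ) r, HasDerivAt (fun y => f (m + y) + f (m - y))
      (f1 (m + x) - f1 (m - x)) x := by
    intro x hx
    have h1 : HasDerivAt (fun y => f (m + y)) (f1 (m + x)) x := by
      have := (h (m + x) ⟨by linarith [hx.1, hx.2], by linarith [hx.1, hx.2]⟩).1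
      exact this.comp_const_add m x
    have h2 : HasDerivAt (fun y => f (m - y)) (-f1 (m - x)) x := by
      have := (h (m - x) ⟨by linarith [hx.1, hx.2], by linarith [hx.1, hx.2]⟩).1
      exact this.comp_const_sub m x
    have := h1.add h2
    rw [← sub_eq_add_neg] at this
    exact this
  have hbd : ∀ x ∈ Icc (0 : ℝ) r, |f1 (m + x) - f1 (m - x)| ≤ N * (2 * x) := by
    intro x hx
    have := lip_aux r N f1 f2 (fun y hy => ⟨(h y hy).2.1, (h y hy).2.2.2⟩) (m - x) (m + x)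
      ⟨by linarith [hx.1, hx.2], by linarith [hx.1, hx.2]⟩
      ⟨by linarith [hx.1, hx.2], by linarith [hx.1, hx.2]⟩
    have h2 : |m + x - (m - x)| = 2 * x := by
      rw [abs_of_nonneg] <;> linarith [hx.1]
    rwa [h2] at this
  have hsq : ∀ x : ℝ, HasDerivAt (fun y : ℝ => N * y ^ 2) (N * (2 * x)) x := by
    intro x
    have := (hasDerivAt_pow 2 x).const_mul N
    simpa using this
  have hmono : MonotoneOn (fun y => (f (m + y) + f (m - y)) + N * y ^ 2) (Icc 0 r) := by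
    apply monotoneOn_of_hasDerivWithinAt_nonneg (convex_Icc _ _)
      (f' := fun x => (f1 (m + x) - f1 (m - x)) + N * (2 * x))
    · intro x hx
      exact ((hder x hx).add (hsq x)).continuousAt.continuousWithinAt
    · intro x hx
      exact ((hder x (interior_subset hx)).add (hsq x)).hasDerivWithinAt
    · intro x hx
      have := abs_le.1 (hbd x (interior_subset hx))
      linarith [this.1]
  have hanti : MonotoneOn (fun y => N * y ^ 2 - (f (m + y) + f (m - y))) (Icc 0 r) := by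
    apply monotoneOn_of_hasDerivWithinAt_nonneg (convex_Icc _ _)
      (f' := fun x => N * (2 * x) - (f1 (m + x) - f1 (m - x)))
    · intro x hx
      exact ((hsq x).sub (hder x hx)).continuousAt.continuousWithinAt
    · intro x hx
      exact ((hsq x).sub (hder x (interior_subset hx))).hasDerivWithinAt
    · intro x hx
      have := abs_le.1 (hbd x (interior_subset hx))
      linarith [this.2]
  have hdI : d ∈ Icc (0 : ℝ) r := ⟨hd, hde.trans her⟩
  have heI : e ∈ Icc (0 : ℝ) r := ⟨hd.trans hde, her⟩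
  have a1 := hmono hdI heI hde
  have a2 := hanti hdI heI hde
  simp only at a1 a2
  rw [abs_le]
  constructor <;> linarith

theorem ordered (r N : ℝ) (f f1 f2 : ℝ → ℝ) (hr : 0 < r) (hr1 : r ≤ 1) (hN : 0 ≤ N)
    (h : ∀ x ∈ Icc (-(3 * r)) (3 * r), HasDerivAt f (f1 x) x ∧ HasDerivAt f1 (f2 x) x ∧
      |f1 x| ≤ N ∧ |f2 x| ≤ N)
    (x1 x2 x3 x4 : ℝ) (h1 : |x1| ≤ r) (h2 : |x2| ≤ r) (h3 : |x3| ≤ r) (h4 : |x4| ≤ r)
    (h21 : x2 ≤ x1) (h43 : x4 ≤ x3) :
    |f x1 + f x2 - f x3 - f x4| ≤ 4 * N * dS x1 x2 x3 x4 := by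
  have k1 := abs_le.1 h1
  have k2 := abs_le.1 h2
  have k3 := abs_le.1 h3
  have k4 := abs_le.1 h4
  set m := (x1 + x2) / 2 with hm
  set d := (x1 - x2) / 2 with hd
  set m' := (x3 + x4) / 2 with hm'
  set d' := (x3 - x4) / 2 with hd'
  have e1 : x1 = m + d := by rw [hm, hd]; ring
  have e2 : x2 = m - d := by rw [hm, hd]; ring
  have e3 : x3 = m' + d' := by rw [hm', hd']; ring
  have e4 : x4 = m' - d' := by rw [hm', hd']; ring
  have hd0 : 0 ≤ d := by rw [hd]; linarith
  have hd0' : 0 ≤ d' := by rw [hd']; linarith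
  have hdr : d ≤ r := by rw [hd]; linarith [k1.2, k2.1]
  have hdr' : d' ≤ r := by rw [hd']; linarith [k3.2, k4.1]
  have hmr : |m'| ≤ r := by
    rw [hm', abs_le]; constructor <;> linarith [k3.1, k3.2, k4.1, k4.2]
  have kmr := abs_le.1 hmr
  have L : ∀ x ∈ Icc (-(3 * r)) (3 * r), HasDerivAt f (f1 x) x ∧ |f1 x| ≤ N :=
    fun x hx => ⟨(h x hx).1, (h x hx).2.2.1⟩
  have b1 : |f (m + d) - f (m' + d)| ≤ N * |m - m'| := by
    have := lip_aux r N f f1 L (m' + d) (m + d)
      ⟨by linarith [kmr.1], by linarith [kmr.2]⟩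
      ⟨by rw [← e1]; linarith, by rw [← e1]; linarith⟩
    rwa [show m + d - (m' + d) = m - m' by ring] at this
  have b2 : |f (m - d) - f (m' - d)| ≤ N * |m - m'| := by
    have := lip_aux r N f f1 L (m' - d) (m - d)
      ⟨by linarith [kmr.1], by linarith [kmr.2]⟩
      ⟨by rw [← e2]; linarith, by rw [← e2]; linarith⟩
    rwa [show m - d - (m' - d) = m - m' by ring] at this
  have b3 : |(f (m' + d) + f (m' - d)) - (f (m' + d') + f (m' - d'))| ≤ N * |d ^ 2 - d' ^ 2| := by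
    rcases le_total d d' with hdd | hdd
    · have := even_aux r N f f1 f2 hr h m' hmr d d' hd0 hdd hdr'
      rw [abs_sub_comm]
      have hsq : d ^ 2 ≤ d' ^ 2 := by nlinarith
      rw [abs_of_nonpos (by linarith : d ^ 2 - d' ^ 2 ≤ 0)]
      linarith
    · have := even_aux r N f f1 f2 hr h m' hmr d' d hd0' hdd hdr
      have hsq : d' ^ 2 ≤ d ^ 2 := by nlinarith
      rw [abs_of_nonneg (by linarith : 0 ≤ d ^ 2 - d' ^ 2)]
      linarith
  have e5 : |m - m'| = |x1 + x2 - x3 - x4| / 2 := by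
    rw [hm, hm', show (x1 + x2) / 2 - (x3 + x4) / 2 = (x1 + x2 - x3 - x4) / 2 by ring,
      abs_div, abs_of_pos (by norm_num : (0 : ℝ) < 2)]
  have e6 : |d ^ 2 - d' ^ 2| ≤ |x1 + x2 - x3 - x4| + |x1 * x2 - x3 * x4| := by
    have : d ^ 2 - d' ^ 2 = ((x1 + x2 + x3 + x4) / 4) * (x1 + x2 - x3 - x4) +
        (-(x1 * x2 - x3 * x4)) := by
      rw [hd, hd']; ring
    rw [this]
    refine (abs_add_le _ _).trans ?_
    rw [abs_neg, abs_mul]
    have : |(x1 + x2 + x3 + x4) / 4| ≤ 1 := by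
      rw [abs_le]; constructor <;> linarith
    have := mul_le_mul_of_nonneg_right this (abs_nonneg (x1 + x2 - x3 - x4))
    linarith
  have hsplit : f x1 + f x2 - f x3 - f x4 = (f (m + d) - f (m' + d)) + (f (m - d) - f (m' - d)) +
      ((f (m' + d) + f (m' - d)) - (f (m' + d') + f (m' - d'))) := by
    rw [← e1, ← e2, ← e3, ← e4]; ring
  rw [hsplit]
  unfold dS
  have t1 := abs_add_le (f (m + d) - f (m' + d) + (f (m - d) - f (m' - d)))
    ((f (m' + d) + f (m' - d)) - (f (m' + d') + f (m' - d')))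
  have t2 := abs_add_le (f (m + d) - f (m' + d)) (f (m - d) - f (m' - d))
  have t3 := mul_le_mul_of_nonneg_left e6 hN
  have p1 := mul_nonneg hN (abs_nonneg (x1 + x2 - x3 - x4))
  have p2 := mul_nonneg hN (abs_nonneg (x1 * x2 - x3 * x4))
  rw [e5] at b1 b2
  linarith

theorem sum_lem : SumLem := by
  intro r N f f1 f2 hr hr1 hN h x1 x2 x3 x4 h1 h2 h3 h4
  have sym1 : ∀ a b c d : ℝ, dS b a c d = dS a b c d := by
    intro a b c d
    unfold dS
    rw [add_comm b a, mul_comm b a]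
  have sym2 : ∀ a b c d : ℝ, dS a b d c = dS a b c d := by
    intro a b c d
    unfold dS
    rw [mul_comm d c, show a + b - d - c = a + b - c - d by ring]
  rcases le_total x2 x1 with h21 | h12
  · rcases le_total x4 x3 with h43 | h34
    · exact ordered r N f f1 f2 hr hr1 hN h x1 x2 x3 x4 h1 h2 h3 h4 h21 h43
    · have := ordered r N f f1 f2 hr hr1 hN h x1 x2 x4 x3 h1 h2 h4 h3 h21 h34
      rw [sym2, show f x1 + f x2 - f x4 - f x3 = f x1 + f x2 - f x3 - f x4 by ring] at this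
      exact this
  · rcases le_total x4 x3 with h43 | h34
    · have := ordered r N f f1 f2 hr hr1 hN h x2 x1 x3 x4 h2 h1 h3 h4 h12 h43
      rw [sym1, show f x2 + f x1 - f x3 - f x4 = f x1 + f x2 - f x3 - f x4 by ring] at this
      exact this
    · have := ordered r N f f1 f2 hr hr1 hN h x2 x1 x4 x3 h2 h1 h4 h3 h12 h34
      rw [sym1, sym2, show f x2 + f x1 - f x4 - f x3 = f x1 + f x2 - f x3 - f x4 by ring] at this
      exact this

end Pool.Agent.TH606.MV
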